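import Pool.Agent.W205.K5.Stm0

/-!
# Project K5: the piece (4, 1)
-/

set_option autoImplicit false

namespace Pool.Agent.W487.K5

open Pool.Agent.W205.K5
open Finset

theorem rho41 (ρ : ℝ) (h0 : 0 < ρ) (h : ρ ^ 4 + (1 - ρ / 4) ^ 4 = 1) : 8 / 9 ≤ ρ := by
  by_contra hlt
  push Not at hlt
  have h1 : ρ * ((257 / 256) * ρ ^ 3 - ρ ^ 2 / 16 + 3 * ρ / 8 - 1) = 0 := by
    linear_combination h
  have h2 : (257 / 256) * ρ ^ 3 - ρ ^ 2 / 16 + 3 * ρ / 8 - 1 = 0 := by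
    rcases mul_eq_zero.1 h1 with h3 | h3
    · exact absurd h3 h0.ne'
    · exact h3
  have h3 : ρ ^ 3 ≤ (8 / 9) ^ 2 * ρ := by
    have : ρ ^ 2 ≤ (8 / 9) ^ 2 := by nlinarith
    nlinarith
  nlinarith [sq_nonneg ρ]

theorem piece41 (hL : S_LINE) (hC : S_CHORD) : PIECE 4 1 := by
  intro w g hS hg1 hg2 ρ h0 h1 hρ
  have hρ9 : 8 / 9 ≤ ρ := rho41 ρ h0 (by exact_mod_cast hρ)
  have hch := hC 4 w g (by norm_num) hS 1 le_rfl (by norm_num) hg1 hg2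
  have hK1 : KK 1 = 0 := by unfold KK; norm_num
  have hK2 : KK 2 = 1 / 2 := by unfold KK; norm_num
  have hK2' : KK (1 + 1) = 1 / 2 := hK2
  rw [hK1, hK2'] at hch
  rw [hK1] at hg1
  have hw0 : g 0 / 2 ≤ w 0 := by
    norm_num at hch
    linarith
  have a0 := hS.add 0 (by norm_num)
  have a1 := hS.add 1 (by norm_num)
  have a2 := hS.add 2 (by norm_num)
  have j1 := hS.jen 1 (by norm_num)
  have j2 := hS.jen 2 (by norm_num)
  have j3 := hS.jen 3 (by norm_num)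
  have hw4 := hS.wk
  norm_num at a0 a1 a2 j1 j2 j3
  have hT : Th 4 ρ (fun j => w (4 - j)) = (1 - ρ) ^ 4 + 4 * (1 - ρ) ^ 3 * ρ * w 3 +
      6 * (1 - ρ) ^ 2 * ρ ^ 2 * w 2 + 4 * (1 - ρ) * ρ ^ 3 * w 1 + ρ ^ 4 * w 0 := by
    unfold Th
    have c2 : Nat.choose 4 2 = 6 := rfl
    simp only [Finset.sum_range_succ, Finset.sum_range_zero]
    norm_num [c2, hw4, Nat.choose]
  rw [hT]
  set s : ℝ := 1 - ρ with hs
  have hs0 : 0 ≤ s := by rw [hs]; linarith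
  have hs9 : 8 * s ≤ ρ := by rw [hs]; linarith
  have e3 : 0 ≤ s ^ 3 * ρ * (g 2 + w 3 - 3) := by
    apply mul_nonneg (by positivity)
    linarith
  have e2 : 0 ≤ (6 * s ^ 2 * ρ ^ 2 - 4 * s ^ 3 * ρ) * (g 1 + w 2 - 2) := by
    apply mul_nonneg
    · have : 6 * s ^ 2 * ρ ^ 2 - 4 * s ^ 3 * ρ = s ^ 2 * ρ * (6 * ρ - 4 * s) := by ring
      rw [this]
      apply mul_nonneg (by positivity)
      linarith
    · linarith
  have e2' : 0 ≤ s ^ 3 * ρ * (g 1 + w 2 - g 2) := by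
    apply mul_nonneg (by positivity)
    linarith
  have e1 : 0 ≤ (4 * s * ρ ^ 3 - 6 * s ^ 2 * ρ ^ 2) * (g 0 + w 1 - 1) := by
    apply mul_nonneg
    · have : 4 * s * ρ ^ 3 - 6 * s ^ 2 * ρ ^ 2 = s * ρ ^ 2 * (4 * ρ - 6 * s) := by ring
      rw [this]
      apply mul_nonneg (by positivity)
      linarith
    · linarith
  have e1' : 0 ≤ s ^ 2 * ρ ^ 2 * (g 0 + w 1 - g 1) := by
    apply mul_nonneg (by positivity)
    linarith
  have e0 : 0 ≤ ρ ^ 4 * (w 0 - g 0 / 2) := by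
    apply mul_nonneg (by positivity)
    linarith
  have eg : 0 ≤ ρ ^ 3 * (ρ / 2 - 4 * s) * g 0 := by
    apply mul_nonneg _ hg1
    apply mul_nonneg (by positivity)
    linarith
  have hsum : (s + ρ) ^ 4 = 1 := by rw [hs]; ring
  nlinarith [e3, e2, e2', e1, e1', e0, eg, hsum]

end Pool.Agent.W487.K5
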